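import Pool.Agent.Y515.D6.Count
import Pool.Agent.H295R3.D6.Final

/-!
# The candidates are in `D_6`, up to few exceptions

The proof of `Pool.Agent.H295R3.D6.assembly`, with the counting of the candidates separated.
-/

set_option autoImplicit false

open Finset Filter

namespace Pool.Agent.Y515.D6

open Pool.Agent.H295R3.D6

theorem core_of (hLS : TaskLS) (hREG : TaskREG) (hALS : TaskALS2) (hALSU : TaskALSU2)
    (hCHEB : TaskCHEB) (hSM : TaskSMOOTH) (hMAX : TaskMAX) (hKD : TaskKDEN)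
    (hHOH : TaskHOH) (hA3 : TaskA3) (hNI : TaskNICE) (hSTR : TaskSTR) (hJ : TaskJ) (hC1 : TaskC1)
    (hC2 : TaskC2) (hC5 : TaskC5) (hK1A : TaskK1A) (hK1B : TaskK1B) (hK2B : TaskK2B)
    (hK2A : TaskK2A) (hK3 : TaskK3) (hLIFT : TaskLIFT) (hN4 : TaskN4) (hN6 : TaskN6)
    (hCh : ChebL) (hM : Mert) (hHo : Pool.Agent.H469R10.HO.Hoheisel) :
    ∃ Y : ℕ, ∀ y : ℕ, Y ≤ y →
      (∃ c : ℝ, 0 < c ∧ ∀ᶠ K : ℕ in atTop, ∀ s : Finset ℕ,
        (∀ k, k ∈ s ↔ (2 ≤ k ∧ k ≤ K ∧ Nice y k)) → c * Real.log K ≤ ∑ k ∈ s, (1 : ℝ) / k) ∧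
      ∀ c' : ℝ, 0 < c' → ∃ η₀ : ℝ, 0 < η₀ ∧ ∀ η : ℝ, 0 < η → η ≤ η₀ → ∀ᶠ N : ℕ in atTop,
        ∃ Bad : Set ℕ, Bad.Finite ∧ (Bad.ncard : ℝ) ≤ c' * η * N ∧
          Cand y η N \ Bad ⊆ (F 6 \ F 5) ∩ Set.Icc 1 N := by
  obtain ⟨δ₂, hδ0, hδ1, h1⟩ := hHOH hHo
  obtain ⟨Yn, hYn⟩ := hNI hCh
  obtain ⟨Yk, hYk⟩ := hKD hM
  refine ⟨max (max Yn Yk) ⌈8 / δ₂⌉₊, fun y hy => ?_⟩
  have hyn : Yn ≤ y := (le_max_of_le_left (le_max_left _ _)).trans hy
  have hyk : Yk ≤ y := (le_max_of_le_left (le_max_right _ _)).trans hy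
  have hyδ : 8 / δ₂ ≤ (y : ℝ) :=
    (Nat.le_ceil _).trans (by exact_mod_cast (le_max_right (max Yn Yk) ⌈8 / δ₂⌉₊).trans hy)
  refine ⟨hYk y hyk, fun c' hc' => ?_⟩
  set κ : ℝ := δ₂ / 4 with hκ
  have hκ0 : 0 < κ := by rw [hκ]; positivity
  have hκ40 : κ ≤ 1 / 40 := by rw [hκ]; linarith
  obtain ⟨η1, hη1, hsm⟩ := hSM hM (c' / 16) (by positivity)
  obtain ⟨γ, hγ, η2, hη2, hE5⟩ := hALSU hALS hLS hCh (κ / 30) (by positivity)
  refine ⟨min (min η1 (min η2 γ)) (δ₂ / 100),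
    lt_min (lt_min hη1 (lt_min hη2 hγ)) (by positivity), fun η hη0 hη => ?_⟩
  have hηδ : η ≤ δ₂ / 100 := hη.trans (min_le_right _ _)
  have hη1' : η ≤ η1 := hη.trans ((min_le_left _ _).trans (min_le_left _ _))
  have hη2' : η ≤ η2 := 
    hη.trans ((min_le_left _ _).trans ((min_le_right _ _).trans (min_le_left _ _)))
  have hηγ : η ≤ γ := 
    hη.trans ((min_le_left _ _).trans ((min_le_right _ _).trans (min_le_right _ _)))
  have hη3 : η ≤ 1 / 1000 := by linarith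
  filter_upwards [h1, hA3 hCh, hsm η hη0 hη1', hE5 η hη0 hη2',
    hREG hLS hM η hη0 (by linarith) η le_rfl (by linarith),
    hREG hLS hM η hη0 (by linarith) (3 * η) (by linarith) le_rfl,
    hJ δ₂ η hδ0 hδ1 hη0 hηδ,
    hK1A hC1 δ₂ κ η hδ0 hδ1 hκ0 hη0 hηδ,
    hK1B hC1 hCHEB δ₂ κ η hδ0 hδ1 hκ0 hη0 hηδ,
    hK2B hC2 hCHEB δ₂ κ η hδ0 hδ1 hκ0 le_rfl hη0 hηδ,
    hK2A hC2 hM δ₂ κ η hδ0 hδ1 hκ0 hκ40 hη0 hηδ,
    hK3 hC2 δ₂ κ η hδ0 hδ1 hκ0 hη0 hηδ,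
    hN4 η hη0 (by linarith), hN6 (1 / κ) (by positivity),
    pow_small (η / 2) (c' * η / 40) (by positivity) (by positivity),
    pow_small (1 - 2 * η) (1 / 8) (by linarith) (by norm_num),
    const_le_pow (3 * η) (1 / κ) (by positivity),
    eventually_ge_atTop 2] with N e1 eA3 esm eE5 eR1 eR3 eJ eK1A eK1B eK2B eK2A eK3 eN4 eN6
      epow epow2 econst hN2
  have hNr : (2 : ℝ) ≤ N := by exact_mod_cast hN2
  have hN0 : (0 : ℝ) < N := by linarith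
  have hN1 : (1 : ℝ) ≤ N := by linarith
  have hK1 : (1 : ℝ) ≤ (N : ℝ) ^ η := Real.one_le_rpow hN1 hη0.le
  have hlogN : 0 < Real.log N := Real.log_pos (by linarith)
  -- the bad set
  set K : ℝ := (N : ℝ) ^ η with hK
  set Bad : Set ℕ := E1 η N ∪ (E2 η η N ∪ (Lift K N (E2 η (3 * η) N) ∪ (Lift K N (E4 η N) ∪
    (E5 η (κ / 30) N ∪ Lift K N (E6 (1 / κ) N))))) with hBad
  -- K^2 <= N/8
  have hKK : K * K ≤ N / 8 := by
    have : K * K = (N : ℝ) ^ (1 - (1 - 2 * η)) := by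
      rw [hK, ← Real.rpow_add hN0]
      congr 1
      ring
    rw [this]
    linarith
  have hsub : Cand y η N \ Bad ⊆ (F 6 \ F 5) ∩ Set.Icc 1 N := by
    rintro m ⟨⟨hmN, hNm, k, p, hnice, hk2, hkN, hp, hm⟩, hmB⟩
    have hm1 : 1 ≤ m := by omega
    have hkp : (N : ℝ) < 2 * ((k : ℝ) * p) := by
      have : (N : ℝ) < ((2 * m : ℕ) : ℝ) := by exact_mod_cast hNm
      rw [hm] at this
      push_cast at this
      exact this
    have hk0 : (0 : ℝ) < k := by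
      have : 0 < k := by omega
      exact_mod_cast this
    have hKp : K + 1 < p := by
      by_contra hcon
      push Not at hcon
      have h2 : (k : ℝ) * p ≤ K * (K + 1) := by
        apply mul_le_mul hkN hcon (by positivity) (by linarith)
      nlinarith
    have hk1p : k + 1 < p := by
      have : ((k + 1 : ℕ) : ℝ) < p := by push_cast; linarith
      exact_mod_cast this
    refine ⟨⟨?_, ?_⟩, hm1, hmN⟩
    · rw [hm]; exact hSTR.2 k p hk2 hk1p hp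
    intro hF5
    obtain ⟨b₂, b₃, b₄, B, hrel⟩ := hSTR.1 m hF5
    obtain ⟨hl1, hl2⟩ := e1 m b₂ b₃ b₄ B hNm hmN hrel
    have hB := eA3 m b₂ b₃ b₄ B hmN hrel
    obtain ⟨j, hj1, hjk, hjb, hjb'⟩ := eJ m k p b₂ b₃ b₄ B hrel hm hmN hNm hk2 hkN hp hl1 hl2 hB
    have ctx : Ctx δ₂ η y N m k p j b₂ b₃ b₄ B :=
      ⟨hrel, hm, hmN, hNm, hnice, hk2, hkN, hp, hl1, hl2, hB, hj1, hjk, hjb, hjb'⟩
    have hb2 : b₂ < m := hrel.2.2.2.1
    have hlift : ∀ E : Set ℕ, j * p ∈ E → m ∈ Lift K N E := fun E hE =>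
      mem_lift hm1 hmN hp (by linarith) hj1 hjk hkN hm hE
    simp only [hBad, Set.mem_union, not_or] at hmB
    obtain ⟨n1, n2, n3, n4, n5, n6⟩ := hmB
    by_cases hcase : κ * ((b₃ - b₄ : ℕ) : ℝ) ≤ ((m - b₂ : ℕ) : ℝ)
    · by_cases h2 : 2 ≤ m - b₂
      · by_cases hs : ((m - b₂ : ℕ) : ℝ) ≤ (N : ℝ) ^ η
        · exact n1 (eK1A y m k p j b₂ b₃ b₄ B ctx h2 hcase hs)
        · exact n2 (eK1B y m k p j b₂ b₃ b₄ B ctx hyδ hcase (not_le.1 hs))
      · have hone : m - b₂ = 1 := by omega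
        rw [hone] at hcase
        push_cast at hcase
        by_cases hBs : (B : ℝ) ≤ Real.log N / 30
        · by_cases h22 : 2 ≤ b₃ - b₄
          · exact n6 (hlift _ (eK3 y m k p j b₂ b₃ b₄ B ctx hone h22 hcase hBs))
          · -- both blocks are singletons
            have e1 : m = b₂ + 1 := by omega
            have e3 : b₃ = b₄ + 1 := by omega
            have e4 : j * p = b₄ + 1 := by omega
            have hsq := hrel.2.2.2.2
            rw [e3, blk_succ, ← e4] at hsq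
            have e5 : blk b₂ m = k * p := by rw [e1, blk_succ, ← e1, hm]
            rw [e5] at hsq
            exact hYn y hyn k j B hnice hj1 hjk (isSquare_cancel hp.ne_zero hsq)
        · have hl' : ((b₃ - b₄ : ℕ) : ℝ) ≤ 1 / κ := by
            rw [le_div_iff₀ hκ0]; linarith
          refine n5 (mem_E5 hC5 ctx (by omega) (hl'.trans econst) ?_)
          push Not at hBs
          have : κ / 30 * ((b₃ - b₄ : ℕ) : ℝ) * Real.log N =
            (κ * ((b₃ - b₄ : ℕ) : ℝ)) * (Real.log N / 30) := by ring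
          rw [this]
          have h5 : (κ * ((b₃ - b₄ : ℕ) : ℝ)) * (Real.log N / 30) ≤ 1 * (Real.log N / 30) :=
            mul_le_mul_of_nonneg_right hcase (by positivity)
          linarith
    · push Not at hcase
      by_cases hs : ((b₃ - b₄ : ℕ) : ℝ) ≤ (N : ℝ) ^ (3 * η)
      · have h4 : j * p ∉ E4 η N := fun h => n4 (hlift _ h)
        have hBl := eK2A y m k p j b₂ b₃ b₄ B ctx hcase hs h4
        have h0 : (0 : ℝ) ≤ ((b₃ - b₄ : ℕ) : ℝ) := by positivity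
        refine n5 (mem_E5 hC5 ctx ?_ hs ?_)
        · have : ((m - b₂ : ℕ) : ℝ) ≤ ((b₃ - b₄ : ℕ) : ℝ) := by nlinarith
          exact_mod_cast this
        · refine le_trans ?_ hBl
          apply mul_le_mul_of_nonneg_right _ hlogN.le
          apply mul_le_mul_of_nonneg_right _ h0
          linarith
      · exact n3 (hlift _ (eK2B y m k p j b₂ b₃ b₄ B ctx hcase (not_le.1 hs)))
  -- counting
  have hfinI : (Set.Icc 1 N : Set ℕ).Finite := Set.finite_Icc 1 N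
  have hBadfin : Bad.Finite := by
    apply hfinI.subset
    rw [hBad]
    intro m hm
    simp only [Set.mem_union] at hm
    rcases hm with h | h | h | h | h | h
    · exact ⟨h.1, h.2.1⟩
    · exact ⟨h.1, h.2.1⟩
    · exact ⟨h.1, h.2.1⟩
    · exact ⟨h.1, h.2.1⟩
    · exact ⟨h.1, h.2.1⟩
    · exact ⟨h.1, h.2.1⟩
  refine ⟨Bad, hBadfin, ?_, hsub⟩
  have hBadcard : Bad.ncard ≤ (E1 η N).ncard + ((E2 η η N).ncard + ((Lift K N (E2 η (3 * η) N)).ncard +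
      ((Lift K N (E4 η N)).ncard + ((E5 η (κ / 30) N).ncard + (Lift K N (E6 (1 / κ) N)).ncard)))) := by
    rw [hBad]
    refine (Set.ncard_union_le _ _).trans (Nat.add_le_add_left ?_ _)
    refine (Set.ncard_union_le _ _).trans (Nat.add_le_add_left ?_ _)
    refine (Set.ncard_union_le _ _).trans (Nat.add_le_add_left ?_ _)
    refine (Set.ncard_union_le _ _).trans (Nat.add_le_add_left ?_ _)
    exact Set.ncard_union_le _ _
  have c1 : ((E1 η N).ncard : ℝ) ≤ 4 * (c' / 16 * η * N) := by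
    have : ((E1 η N).ncard : ℝ) ≤ ((4 * (G η N).ncard : ℕ) : ℝ) := by exact_mod_cast hMAX η N
    push_cast at this
    linarith
  have hmono : ∀ a : ℝ, a ≤ 1 - η / 2 → (N : ℝ) ^ a ≤ c' * η / 40 * N := fun a ha =>
    (Real.rpow_le_rpow_of_exponent_le hN1 ha).trans epow
  have c2 : ((E2 η η N).ncard : ℝ) ≤ c' * η / 40 * N := eR1.trans (hmono _ (by linarith))
  have hmulK : ∀ a : ℝ, K * (N : ℝ) ^ a = (N : ℝ) ^ (η + a) := fun a => by
    rw [hK, ← Real.rpow_add hN0]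
  have c3 : ((Lift K N (E2 η (3 * η) N)).ncard : ℝ) ≤ c' * η / 40 * N := by
    refine (hLIFT K N _ hK1 (fun n hn => hn.2.1)).trans ?_
    refine (mul_le_mul_of_nonneg_left eR3 (by linarith)).trans ?_
    rw [hmulK]
    exact hmono _ (by linarith)
  have c4 : ((Lift K N (E4 η N)).ncard : ℝ) ≤ c' * η / 40 * N := by
    refine (hLIFT K N _ hK1 (fun n hn => hn.2.1)).trans ?_
    refine (mul_le_mul_of_nonneg_left eN4 (by linarith)).trans ?_
    rw [hmulK]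
    exact hmono _ (by linarith)
  have c5 : ((E5 η (κ / 30) N).ncard : ℝ) ≤ c' * η / 40 * N := eE5.trans (hmono _ (by linarith))
  have c6 : ((Lift K N (E6 (1 / κ) N)).ncard : ℝ) ≤ c' * η / 40 * N := by
    refine (hLIFT K N _ hK1 (fun n hn => hn.2.1)).trans ?_
    refine (mul_le_mul_of_nonneg_left eN6 (by linarith)).trans ?_
    rw [hmulK]
    exact hmono _ (by linarith)
  have t2 : (Bad.ncard : ℝ) ≤ (E1 η N).ncard + ((E2 η η N).ncard + ((Lift K N (E2 η (3 * η) N)).ncard +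
      ((Lift K N (E4 η N)).ncard + ((E5 η (κ / 30) N).ncard + (Lift K N (E6 (1 / κ) N)).ncard)))) := by
    exact_mod_cast hBadcard
  have hpos : 0 < c' * η * N := by positivity
  nlinarith


theorem core : ∃ Y : ℕ, ∀ y : ℕ, Y ≤ y →
      (∃ c : ℝ, 0 < c ∧ ∀ᶠ K : ℕ in atTop, ∀ s : Finset ℕ,
        (∀ k, k ∈ s ↔ (2 ≤ k ∧ k ≤ K ∧ Nice y k)) → c * Real.log K ≤ ∑ k ∈ s, (1 : ℝ) / k) ∧
      ∀ c' : ℝ, 0 < c' → ∃ η₀ : ℝ, 0 < η₀ ∧ ∀ η : ℝ, 0 < η → η ≤ η₀ → ∀ᶠ N : ℕ in atTop,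
        ∃ Bad : Set ℕ, Bad.Finite ∧ (Bad.ncard : ℝ) ≤ c' * η * N ∧
          Cand y η N \ Bad ⊆ (F 6 \ F 5) ∩ Set.Icc 1 N :=
  core_of Pool.Agent.H174R3.D6LS.taskLS Pool.Agent.H157R3.D6.taskREG
    Pool.Agent.H278R3.D6.taskALS2 taskALSU2
    Pool.Agent.H586R3.D6.taskCHEB Smooth.smooth MAX.taskMAX taskKDEN
    Pool.Agent.H941R3.D6.taskHOH Pool.Agent.H644R3.D6.taskA3 taskNICE Pool.Agent.H672R3.D6.taskSTR
    taskJ taskC1 taskC2 taskC5 Pool.Agent.H603R3.D6.taskK1A Pool.Agent.H603R3.D6.taskK1B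
    Pool.Agent.H170.D6.taskK2B Pool.Agent.H170.D6.taskK2A Pool.Agent.H525R3.D6.taskK3
    Pool.Agent.H632R3.D6.taskLIFT Pool.Agent.H632R3.D6.taskN4 Pool.Agent.H632R3.D6.taskN6
    chebL mert Pool.Agent.H295R3.D.hoheisel

/-- `D_6` has positive lower density in all multiplicative windows and reduced classes -/
theorem window (q : ℕ) [NeZero q] {δ : ℝ} (hδ : 0 < δ) (hδ1 : δ ≤ 1 / 2) :
    ∃ c : ℝ, 0 < c ∧ ∀ᶠ N : ℕ in atTop, ∀ a : ZMod q, IsUnit a →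
      c * N ≤ (((F 6 \ F 5) ∩ {m : ℕ | m ≤ N ∧ (1 - δ) * N < m ∧ (m : ZMod q) = a}).ncard : ℝ) := by
  obtain ⟨Y, hY⟩ := core
  obtain ⟨⟨c, hc, hck⟩, h2⟩ := hY (max Y q) (le_max_left _ _)
  obtain ⟨c', hc', hcand⟩ := count q hδ hδ1 (max Y q) (le_max_right _ _) c hc hck
  obtain ⟨η₀, hη₀, h3⟩ := h2 (c' / 2) (by positivity)
  have hη0 : 0 < min η₀ (1 / 10) := lt_min hη₀ (by norm_num)
  refine ⟨c' / 2 * min η₀ (1 / 10), by positivity, ?_⟩
  filter_upwards [h3 _ hη0 (min_le_left _ _), hcand _ hη0 (min_le_right _ _)] with N h4 h5 a ha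
  obtain ⟨Bad, hBf, hBc, hsub⟩ := h4
  have h6 := h5 a ha
  set η := min η₀ (1 / 10) with hη
  set Tg := (F 6 \ F 5) ∩ {m : ℕ | m ≤ N ∧ (1 - δ) * N < m ∧ (m : ZMod q) = a} with hTg
  have hTf : Tg.Finite := (Set.finite_Iic N).subset fun m hm => hm.2.1
  have h7 : CandW q a δ (max Y q) η N ⊆ Tg ∪ Bad := by
    intro m hm
    by_cases hb : m ∈ Bad
    · exact Or.inr hb
    · exact Or.inl ⟨(hsub ⟨candW_sub hδ1 hm, hb⟩).1, hm.1, hm.2.1, hm.2.2.1⟩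
  have h8 : (CandW q a δ (max Y q) η N).ncard ≤ Tg.ncard + Bad.ncard :=
    (Set.ncard_le_ncard h7 (hTf.union hBf)).trans (Set.ncard_union_le _ _)
  have h9 : ((CandW q a δ (max Y q) η N).ncard : ℝ) ≤ Tg.ncard + Bad.ncard := by
    exact_mod_cast h8
  have e : c' / 2 * η * N = c' * η * N - c' / 2 * η * N := by ring
  rw [e]
  linarith

end Pool.Agent.Y515.D6
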