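import Pool.Agent.Y515.D6.PW
import Pool.Agent.H295R3.D6.Stmts

/-!
# Candidates in windows and residue classes
-/

set_option autoImplicit false

open Finset Filter Topology

namespace Pool.Agent.Y515.D6

open Pool.Agent.H295R3.D6

/-- the primes -/
noncomputable def Pw (q : ℕ) (a : ZMod q) (δ x : ℝ) : Finset ℕ :=
  (Icc 1 ⌊x⌋₊).filter (fun p : ℕ => p.Prime ∧ (1 - δ) * x < p ∧ (p : ZMod q) = a)

theorem prime_window_unif (q : ℕ) [NeZero q] {δ : ℝ} (hδ : 0 < δ) (hδ1 : δ ≤ 1 / 2) :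
    ∃ c : ℝ, 0 < c ∧ ∀ᶠ x : ℝ in atTop, ∀ a : ZMod q, IsUnit a →
      c * x ≤ ∑ p ∈ Pw q a δ x, Real.log p := by
  have h : ∀ a : ZMod q, ∃ c : ℝ, 0 < c ∧ ∀ᶠ x : ℝ in atTop, IsUnit a →
      c * x ≤ ∑ p ∈ Pw q a δ x, Real.log p := by
    intro a
    by_cases ha : IsUnit a
    · obtain ⟨c, hc, h⟩ := prime_window ha hδ hδ1
      exact ⟨c, hc, h.mono fun x hx _ => hx⟩
    · exact ⟨1, one_pos, Eventually.of_forall fun x h => absurd h ha⟩
  choose c hc h using h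
  refine ⟨univ.inf' ⟨0, mem_univ _⟩ c, (Finset.lt_inf'_iff _).2 fun a _ => hc a, ?_⟩
  filter_upwards [eventually_all.2 h, eventually_ge_atTop 0] with x hx hx0 a ha
  exact (mul_le_mul_of_nonneg_right (Finset.inf'_le _ (mem_univ a)) hx0).trans (hx a ha)

/-- the candidates -/
def CandW (q : ℕ) (a : ZMod q) (δ : ℝ) (y : ℕ) (η : ℝ) (N : ℕ) : Set ℕ :=
  {m | m ≤ N ∧ (1 - δ) * N < m ∧ (m : ZMod q) = a ∧ ∃ k p : ℕ, Nice y k ∧ 2 ≤ k ∧
    (k : ℝ) ≤ (N : ℝ) ^ η ∧ p.Prime ∧ m = k * p}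

lemma candW_sub {q : ℕ} {a : ZMod q} {δ : ℝ} (hδ1 : δ ≤ 1 / 2) {y : ℕ} {η : ℝ} {N : ℕ} :
    CandW q a δ y η N ⊆ Cand y η N := by
  rintro m ⟨h1, h2, -, h3⟩
  refine ⟨h1, ?_, h3⟩
  have hN : (0 : ℝ) ≤ N := Nat.cast_nonneg N
  have : (N : ℝ) < 2 * m := by nlinarith
  exact_mod_cast this

lemma nice_coprime {q y k : ℕ} (hy : q ≤ y) (hq : 0 < q) (hk : Nice y k) : k.Coprime q := by
  apply Nat.coprime_of_dvd
  intro l hl h1 h2
  have h3 := hk.2.1 l hl h1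
  have h4 := Nat.le_of_dvd hq h2
  omega

open Classical in
theorem count_le {q : ℕ} [NeZero q] {a : ZMod q} {δ : ℝ} (hδ1 : δ ≤ 1 / 2) {y : ℕ} (hy : q ≤ y)
    {η : ℝ} {N K : ℕ} (hKN : (K : ℝ) ≤ (N : ℝ) ^ η)
    (hbig : 2 * K * K ≤ N) (s : Finset ℕ)
    (hs : ∀ k, k ∈ s ↔ (2 ≤ k ∧ k ≤ K ∧ Nice y k)) :
    ∑ k ∈ s, (Pw q (a * (k : ZMod q)⁻¹) δ ((N : ℝ) / k)).card ≤ (CandW q a δ y η N).ncard := by
  rw [← Finset.card_sigma, ← Set.ncard_coe_finset]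
  have key : ∀ k ∈ s, ∀ p ∈ Pw q (a * (k : ZMod q)⁻¹) δ ((N : ℝ) / k),
      k * p ≤ N ∧ (1 - δ) * N < ((k * p : ℕ) : ℝ) ∧ p.Prime ∧
        (((k * p : ℕ) : ℕ) : ZMod q) = a := by
    intro k hk p hp
    unfold Pw at hp
    rw [mem_filter, mem_Icc] at hp
    have hk1 := (hs k).1 hk
    have hk0 : (0 : ℝ) < k := by exact_mod_cast (by omega : 0 < k)
    refine ⟨?_, ?_, hp.2.1, ?_⟩
    · have h1 : (p : ℝ) ≤ (N : ℝ) / k := (Nat.cast_le.2 hp.1.2).trans (Nat.floor_le (by positivity))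
      rw [le_div_iff₀ hk0] at h1
      have : ((k * p : ℕ) : ℝ) ≤ N := by push_cast; linarith
      exact_mod_cast this
    · have h1 := hp.2.2.1
      push_cast
      rw [← mul_div_assoc, div_lt_iff₀ hk0] at h1
      linarith
    · push_cast
      rw [hp.2.2.2]
      have h1 := ZMod.coe_mul_inv_eq_one k (nice_coprime hy (NeZero.pos q) hk1.2.2)
      calc (k : ZMod q) * (a * (k : ZMod q)⁻¹) = a * ((k : ZMod q) * (k : ZMod q)⁻¹) := by ring
        _ = a := by rw [h1, mul_one]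
  have hpk : ∀ k ∈ s, ∀ p ∈ Pw q (a * (k : ZMod q)⁻¹) δ ((N : ℝ) / k), K < p := by
    intro k hk p hp
    obtain ⟨h1, h2, h3, -⟩ := key k hk p hp
    have hk1 := (hs k).1 hk
    by_contra hcon
    push Not at hcon
    have h4 : 2 * (k * p) ≤ N := by
      calc 2 * (k * p) ≤ 2 * (K * K) := Nat.mul_le_mul_left _ (Nat.mul_le_mul hk1.2.1 hcon)
        _ = 2 * K * K := by ring
        _ ≤ N := hbig
    have h5 : (2 : ℝ) * ((k * p : ℕ) : ℝ) ≤ N := by exact_mod_cast h4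
    have hN : (0 : ℝ) ≤ N := Nat.cast_nonneg N
    nlinarith
  have hfin : (CandW q a δ y η N).Finite := by
    apply Set.Finite.subset (Set.finite_Iic N)
    intro m hm
    exact hm.1
  refine Set.ncard_le_ncard_of_injOn (fun x : (_ : ℕ) × ℕ => x.1 * x.2) ?_ ?_ hfin
  · rintro ⟨k, p⟩ hx
    rw [mem_coe, mem_sigma] at hx
    obtain ⟨h1, h2, h3, h4⟩ := key k hx.1 p hx.2
    have hk1 := (hs k).1 hx.1
    exact ⟨h1, h2, h4, k, p, hk1.2.2, hk1.1, le_trans (by exact_mod_cast hk1.2.1) hKN, h3, rfl⟩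
  · rintro ⟨k, p⟩ hx ⟨k', p'⟩ hx' heq
    rw [mem_coe, mem_sigma] at hx hx'
    simp only at heq
    have hp := hpk k hx.1 p hx.2
    have hp' := hpk k' hx'.1 p' hx'.2
    have hk := (hs k).1 hx.1
    have hk' := (hs k').1 hx'.1
    have pp := (key k hx.1 p hx.2).2.2.1
    have pp' := (key k' hx'.1 p' hx'.2).2.2.1
    have hpp : p = p' := by
      have : p ∣ k' * p' := ⟨k, by rw [← heq]; ring⟩
      rcases (Nat.Prime.dvd_mul pp).1 this with h | h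
      · exact absurd (Nat.le_of_dvd (by omega) h) (by omega)
      · exact (Nat.prime_dvd_prime_iff_eq pp pp').1 h
    subst hpp
    have hkk : k = k' := Nat.eq_of_mul_eq_mul_right pp.pos heq
    subst hkk
    rfl

theorem count (q : ℕ) [NeZero q] {δ : ℝ} (hδ : 0 < δ) (hδ1 : δ ≤ 1 / 2) (y : ℕ) (hy : q ≤ y)
    (c : ℝ) (hc : 0 < c) (hK : ∀ᶠ K : ℕ in atTop, ∀ s : Finset ℕ,
      (∀ k, k ∈ s ↔ (2 ≤ k ∧ k ≤ K ∧ Nice y k)) → c * Real.log K ≤ ∑ k ∈ s, (1 : ℝ) / k) :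
    ∃ c' : ℝ, 0 < c' ∧ ∀ η : ℝ, 0 < η → η ≤ 1 / 10 → ∀ᶠ N : ℕ in atTop, ∀ a : ZMod q, IsUnit a →
      c' * η * N ≤ ((CandW q a δ y η N).ncard : ℝ) := by
  obtain ⟨c1, hc1, h1⟩ := prime_window_unif q hδ hδ1
  obtain ⟨X0, hX0⟩ := eventually_atTop.1 h1
  refine ⟨c1 * c / 2, by positivity, ?_⟩
  intro η hη hη1
  have htend : Tendsto (fun N : ℕ => (N : ℝ) ^ η) atTop atTop :=
    (tendsto_rpow_atTop hη).comp tendsto_natCast_atTop_atTop
  have htendK : Tendsto (fun N : ℕ => ⌊(N : ℝ) ^ η⌋₊) atTop atTop :=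
    tendsto_nat_floor_atTop.comp htend
  have htend2 : Tendsto (fun N : ℕ => (N : ℝ) ^ (η / 2)) atTop atTop :=
    (tendsto_rpow_atTop (by positivity)).comp tendsto_natCast_atTop_atTop
  have htend3 : Tendsto (fun N : ℕ => (N : ℝ) ^ (1 / 2 : ℝ)) atTop atTop :=
    (tendsto_rpow_atTop (by norm_num)).comp tendsto_natCast_atTop_atTop
  filter_upwards [htendK.eventually hK, htend2.eventually (eventually_ge_atTop 2),
    htend3.eventually (eventually_ge_atTop (max 4 X0)), eventually_ge_atTop 16]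
    with N hKN h2 h3 hN16 a ha
  set K := ⌊(N : ℝ) ^ η⌋₊ with hKdef
  have hN1 : (1 : ℝ) ≤ N := by exact_mod_cast (by omega : 1 ≤ N)
  have hN0 : (0 : ℝ) < N := by linarith
  have hKle : (K : ℝ) ≤ (N : ℝ) ^ η := Nat.floor_le (by positivity)
  have hlogN : 0 < Real.log N := Real.log_pos (by exact_mod_cast (by omega : 1 < N))
  have hhalf : (N : ℝ) ^ (1 / 2 : ℝ) * (N : ℝ) ^ (1 / 2 : ℝ) = N := by
    rw [← Real.rpow_add hN0]; norm_num
  have hη10 : (N : ℝ) ^ η ≤ (N : ℝ) ^ (1 / 10 : ℝ) := Real.rpow_le_rpow_of_exponent_le hN1 hη1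
  have hK2 : (K : ℝ) * K ≤ (N : ℝ) ^ (1 / 2 : ℝ) := by
    calc (K : ℝ) * K ≤ (N : ℝ) ^ η * (N : ℝ) ^ η := by gcongr
      _ = (N : ℝ) ^ (η + η) := by rw [← Real.rpow_add hN0]
      _ ≤ (N : ℝ) ^ (1 / 2 : ℝ) := Real.rpow_le_rpow_of_exponent_le hN1 (by linarith)
  have h4' : (4 : ℝ) ≤ (N : ℝ) ^ (1 / 2 : ℝ) := (le_max_left _ _).trans h3
  have hB' : X0 ≤ (N : ℝ) ^ (1 / 2 : ℝ) := (le_max_right _ _).trans h3
  have hbig : 2 * K * K ≤ N := by
    have : (2 : ℝ) * K * K ≤ N := by nlinarith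
    exact_mod_cast this
  have hKhalf : ∀ k : ℕ, k ≤ K → (k : ℝ) ≤ (N : ℝ) ^ (1 / 2 : ℝ) := by
    intro k hk
    calc (k : ℝ) ≤ K := by exact_mod_cast hk
      _ ≤ (N : ℝ) ^ η := hKle
      _ ≤ (N : ℝ) ^ (1 / 2 : ℝ) := Real.rpow_le_rpow_of_exponent_le hN1 (by linarith)
  classical
  set s : Finset ℕ := (Icc 2 K).filter (fun k => Nice y k) with hs
  have hsmem : ∀ k, k ∈ s ↔ (2 ≤ k ∧ k ≤ K ∧ Nice y k) := by
    intro k; rw [hs, mem_filter, mem_Icc]; tauto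
  have hsum := hKN s hsmem
  have hcount := count_le (a := a) hδ1 hy hKle hbig s hsmem
  have hcountR : (∑ k ∈ s, ((Pw q (a * (k : ZMod q)⁻¹) δ ((N : ℝ) / k)).card : ℝ)) ≤
      ((CandW q a δ y η N).ncard : ℝ) := by exact_mod_cast hcount
  have hlower : c1 * (N : ℝ) / Real.log N * ∑ k ∈ s, (1 : ℝ) / k ≤
      ∑ k ∈ s, ((Pw q (a * (k : ZMod q)⁻¹) δ ((N : ℝ) / k)).card : ℝ) := by
    rw [Finset.mul_sum]
    apply Finset.sum_le_sum
    intro k hk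
    have hk1 := (hsmem k).1 hk
    have hkR : (0 : ℝ) < k := by exact_mod_cast (by omega : 0 < k)
    have hkh := hKhalf k hk1.2.1
    have hx : X0 ≤ (N : ℝ) / k := by
      refine hB'.trans ?_
      rw [le_div_iff₀ hkR]
      calc (N : ℝ) ^ (1 / 2 : ℝ) * k ≤ (N : ℝ) ^ (1 / 2 : ℝ) * (N : ℝ) ^ (1 / 2 : ℝ) := by gcongr
        _ = N := hhalf
    have hcop := nice_coprime hy (NeZero.pos q) hk1.2.2
    have hu : IsUnit (a * (k : ZMod q)⁻¹) := by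
      apply ha.mul
      have h5 := ZMod.coe_mul_inv_eq_one k hcop
      exact IsUnit.of_mul_eq_one (k : ZMod q) (by rw [mul_comm]; exact h5)
    have h6 := hX0 _ hx _ hu
    have h7 : ∑ p ∈ Pw q (a * (k : ZMod q)⁻¹) δ ((N : ℝ) / k), Real.log p ≤
        ((Pw q (a * (k : ZMod q)⁻¹) δ ((N : ℝ) / k)).card : ℝ) * Real.log N := by
      rw [← nsmul_eq_mul]
      apply Finset.sum_le_card_nsmul
      intro p hp
      unfold Pw at hp
      rw [mem_filter, mem_Icc] at hp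
      apply Real.log_le_log
      · exact_mod_cast hp.2.1.pos
      · refine (Nat.cast_le.2 hp.1.2).trans ((Nat.floor_le (by positivity)).trans ?_)
        rw [div_le_iff₀ hkR]
        have : (1 : ℝ) ≤ k := by exact_mod_cast (by omega : 1 ≤ k)
        nlinarith
    have h8 : c1 * ((N : ℝ) / k) ≤
        ((Pw q (a * (k : ZMod q)⁻¹) δ ((N : ℝ) / k)).card : ℝ) * Real.log N := h6.trans h7
    calc c1 * (N : ℝ) / Real.log N * (1 / k) = c1 * ((N : ℝ) / k) / Real.log N := by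
          field_simp
      _ ≤ _ := by rw [div_le_iff₀ hlogN]; exact h8
  have hlogK : η / 2 * Real.log N ≤ Real.log K := by
    have e1 : (N : ℝ) ^ (η / 2) ≤ K := by
      have e2 : (N : ℝ) ^ (η / 2) * (N : ℝ) ^ (η / 2) = (N : ℝ) ^ η := by
        rw [← Real.rpow_add hN0]; congr 1; ring
      have e3 : (N : ℝ) ^ η < K + 1 := Nat.lt_floor_add_one _
      nlinarith
    rw [← Real.log_rpow hN0]
    exact Real.log_le_log (by positivity) e1
  calc c1 * c / 2 * η * N = c1 * (N : ℝ) / Real.log N * (c * (η / 2 * Real.log N)) := by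
        field_simp
    _ ≤ c1 * (N : ℝ) / Real.log N * (c * Real.log K) := by gcongr
    _ ≤ c1 * (N : ℝ) / Real.log N * ∑ k ∈ s, (1 : ℝ) / k := by gcongr
    _ ≤ _ := hlower
    _ ≤ _ := hcountR

end Pool.Agent.Y515.D6
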