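import Mathlib
import Pool.Agent.Cov.PNT

/-!
# Primes in short windows and residue classes
-/

set_option autoImplicit false

open Finset Filter Topology

namespace Pool.Agent.Y515.D6

open ArithmeticFunction.vonMangoldt (residueClass)

/-- the number of the primes of a reduced class in a window -/
theorem prime_window {q : ℕ} [NeZero q] {a : ZMod q} (ha : IsUnit a) {δ : ℝ} (hδ : 0 < δ)
    (hδ1 : δ ≤ 1 / 2) : ∃ c : ℝ, 0 < c ∧ ∀ᶠ x : ℝ in atTop,
      c * x ≤ ∑ p ∈ (Icc 1 ⌊x⌋₊).filter (fun p : ℕ => p.Prime ∧ (1 - δ) * x < p ∧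
        (p : ZMod q) = a), Real.log p := by
  set L : ℝ := (q.totient : ℝ)⁻¹ with hL
  have hL0 : 0 < L := by
    rw [hL, inv_pos]
    exact_mod_cast Nat.totient_pos.2 (NeZero.pos q)
  set S : ℝ → ℝ := fun x => ∑ k ∈ Icc 1 ⌊x⌋₊, residueClass a k with hS
  have h1 : Tendsto (fun x : ℝ => S x / x) atTop (𝓝 L) := Pool.Agent.Cov.PNT.pnt_residueClass ha
  have h1d : 0 < 1 - δ := by linarith
  have h2 : Tendsto (fun x : ℝ => S ((1 - δ) * x) / ((1 - δ) * x)) atTop (𝓝 L) :=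
    h1.comp (tendsto_id.const_mul_atTop h1d)
  have h3 : Tendsto (fun x : ℝ => S x / x - (1 - δ) * (S ((1 - δ) * x) / ((1 - δ) * x))) atTop
      (𝓝 (L - (1 - δ) * L)) := h1.sub (h2.const_mul _)
  have h4 : ∀ᶠ x : ℝ in atTop, δ * L / 2 <
      S x / x - (1 - δ) * (S ((1 - δ) * x) / ((1 - δ) * x)) := by
    apply h3.eventually_const_lt
    have : 0 < δ * L := mul_pos hδ hL0
    linarith
  have h5 : Tendsto (fun x : ℝ => 2 * √x * Real.log x / x) atTop (𝓝 0) := by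
    have h6 : Tendsto (fun x : ℝ => Real.log x / x ^ (1 / 2 : ℝ)) atTop (𝓝 0) :=
      (isLittleO_log_rpow_atTop (by norm_num)).tendsto_div_nhds_zero
    have h7 : Tendsto (fun x : ℝ => 2 * (Real.log x / x ^ (1 / 2 : ℝ))) atTop (𝓝 (2 * 0)) :=
      h6.const_mul 2
    rw [mul_zero] at h7
    refine h7.congr' ?_
    filter_upwards [eventually_gt_atTop 0] with x hx
    rw [← Real.sqrt_eq_rpow]
    have hs : √x * √x = x := Real.mul_self_sqrt hx.le
    have hs0 : √x ≠ 0 := (Real.sqrt_pos.2 hx).ne'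
    rw [mul_div_assoc', div_eq_div_iff hs0 hx.ne']
    calc 2 * Real.log x * x = 2 * Real.log x * (√x * √x) := by rw [hs]
      _ = _ := by ring
  have h6 : ∀ᶠ x : ℝ in atTop, 2 * √x * Real.log x / x < δ * L / 4 := by
    apply h5.eventually_lt_const
    have : 0 < δ * L := mul_pos hδ hL0
    linarith
  refine ⟨δ * L / 4, by positivity, ?_⟩
  filter_upwards [h4, h6, eventually_ge_atTop 1] with x hx4 hx6 hx1
  have hx0 : 0 < x := by linarith
  have e1 : S x / x - (1 - δ) * (S ((1 - δ) * x) / ((1 - δ) * x)) =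
      (S x - S ((1 - δ) * x)) / x := by
    field_simp
  rw [e1, lt_div_iff₀ hx0] at hx4
  rw [div_lt_iff₀ hx0] at hx6
  have hfl : ⌊(1 - δ) * x⌋₊ ≤ ⌊x⌋₊ := Nat.floor_le_floor (by nlinarith)
  have e2 : S x - S ((1 - δ) * x) = ∑ k ∈ Ioc ⌊(1 - δ) * x⌋₊ ⌊x⌋₊, residueClass a k := by
    rw [hS]
    simp only
    rw [sub_eq_iff_eq_add, ← sum_union]
    · apply sum_congr _ fun _ _ => rfl
      ext k
      rw [mem_union, mem_Icc, mem_Ioc, mem_Icc]
      omega
    · rw [disjoint_left]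
      intro k h h'
      rw [mem_Ioc] at h
      rw [mem_Icc] at h'
      omega
  have e3 : ∑ k ∈ Ioc ⌊(1 - δ) * x⌋₊ ⌊x⌋₊, residueClass a k =
      ∑ k ∈ (Ioc ⌊(1 - δ) * x⌋₊ ⌊x⌋₊).filter Nat.Prime, residueClass a k +
      ∑ k ∈ (Ioc ⌊(1 - δ) * x⌋₊ ⌊x⌋₊).filter (fun k => ¬ k.Prime), residueClass a k :=
    (sum_filter_add_sum_filter_not _ _ _).symm
  have e4 : ∑ k ∈ (Ioc ⌊(1 - δ) * x⌋₊ ⌊x⌋₊).filter (fun k => ¬ k.Prime), residueClass a k ≤
      2 * √x * Real.log x := by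
    have g1 : ∑ k ∈ (Ioc ⌊(1 - δ) * x⌋₊ ⌊x⌋₊).filter (fun k => ¬ k.Prime), residueClass a k ≤
        ∑ k ∈ (Ioc 0 ⌊x⌋₊).filter (fun k => ¬ k.Prime), ArithmeticFunction.vonMangoldt k := by
      refine (sum_le_sum fun k _ =>
        ArithmeticFunction.vonMangoldt.residueClass_le a k).trans ?_
      refine sum_le_sum_of_subset_of_nonneg ?_ fun _ _ _ =>
        ArithmeticFunction.vonMangoldt_nonneg
      intro k hk
      rw [mem_filter, mem_Ioc] at hk ⊢
      exact ⟨⟨by omega, hk.1.2⟩, hk.2⟩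
    have g2 : Chebyshev.psi x = Chebyshev.theta x +
        ∑ k ∈ (Ioc 0 ⌊x⌋₊).filter (fun k => ¬ k.Prime), ArithmeticFunction.vonMangoldt k := by
      unfold Chebyshev.psi Chebyshev.theta
      rw [← sum_filter_add_sum_filter_not (Ioc 0 ⌊x⌋₊) Nat.Prime]
      congr 1
      refine sum_congr rfl fun p hp => ?_
      exact ArithmeticFunction.vonMangoldt_apply_prime (mem_filter.1 hp).2
    have g3 := (abs_le.1 (Chebyshev.abs_psi_sub_theta_le_sqrt_mul_log hx1)).2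
    linarith
  have e5 : ∑ k ∈ (Ioc ⌊(1 - δ) * x⌋₊ ⌊x⌋₊).filter Nat.Prime, residueClass a k ≤
      ∑ p ∈ (Icc 1 ⌊x⌋₊).filter (fun p : ℕ => p.Prime ∧ (1 - δ) * x < p ∧
        (p : ZMod q) = a), Real.log p := by
    have g1 : ∀ k ∈ (Ioc ⌊(1 - δ) * x⌋₊ ⌊x⌋₊).filter Nat.Prime, residueClass a k =
        if (k : ZMod q) = a then Real.log k else 0 := by
      intro k hk
      unfold ArithmeticFunction.vonMangoldt.residueClass
      by_cases h : (k : ZMod q) = a
      · rw [Set.indicator_of_mem (by exact h), if_pos h]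
        exact ArithmeticFunction.vonMangoldt_apply_prime (mem_filter.1 hk).2
      · rw [Set.indicator_of_notMem (by exact h), if_neg h]
    rw [sum_congr rfl g1, ← sum_filter]
    refine sum_le_sum_of_subset_of_nonneg ?_ fun p _ _ => Real.log_natCast_nonneg p
    intro p hp
    rw [mem_filter, mem_filter, mem_Ioc] at hp
    rw [mem_filter, mem_Icc]
    refine ⟨⟨hp.1.2.one_le, hp.1.1.2⟩, hp.1.2, ?_, hp.2⟩
    have := Nat.lt_of_floor_lt hp.1.1.1
    exact this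
  rw [e2, e3] at hx4
  nlinarith

end Pool.Agent.Y515.D6
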